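import Pool.Agent.MP_45960e_lc.Poly.Fin

namespace Pool.Agent.Results.MP_45960e_lc.LogDimension

open Pool.Agent.MP_45960e_lc

theorem result : ∃ C : ℕ, ∀ k : ℕ, ∃ (G H : Type) (_ : Group G) (_ : Group H) (_ : Finite G)
    (_ : Finite H), Nat.card G = Nat.card H ∧ Nat.card G ≤ C ^ (k + 1) ∧ IsEmpty (G ≃* H) ∧
      ∀ r : ℕ, ¬ Wins (k := k) (G := G) (H := H) r (fun _ => none) := by
  obtain ⟨c, hc⟩ : ∃ c : ℕ, c = 182279 := ⟨_, rfl⟩
  refine ⟨3 ^ c, fun k => ?_⟩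
  rw [← pow_mul, hc]
  exact PR.exists_pair k

end Pool.Agent.Results.MP_45960e_lc.LogDimension
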