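import Pool.Agent.MP_45960e_lc.Poly.Fin

namespace Pool.Agent.Results.MP_45960e_lc.PolyRounds

open Pool.Agent.MP_45960e_lc Filter Topology

theorem result (f : ℕ → ℝ) (hpos : ∀ᶠ n : ℕ in atTop, 0 < f n)
    (hf : ∀ c : ℕ, ∀ᶠ n : ℕ in atTop, f n ^ c ≤ (n : ℝ)) :
    ∃ (G : ℕ → Type) (_ : ∀ m, Group (G m)) (_ : ∀ m, Finite (G m)),
      Tendsto (fun m => Nat.card (G m)) atTop atTop ∧
      (∀ m, ∃ r : ℕ, 1 ≤ r ∧ Identifies 12 r (G m)) ∧
      ∀ k' : ℕ, Tendsto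
        (fun m => ((Rounds k' (G m) : ℕ∞) : ENNReal) / ENNReal.ofReal (f (Nat.card (G m))))
        atTop (𝓝 ⊤) := by
  have key : ∀ m : ℕ, ∃ (G : Type) (_ : Group G) (_ : Finite G), m ≤ Nat.card G ∧
      (∃ r, Identifies 12 r G) ∧ 0 < f (Nat.card G) ∧
      ∀ k' ≤ m, ∀ r, Identifies k' r G → ((m : ℝ) + 1) * f (Nat.card G) ≤ r := by
    intro m
    obtain ⟨c, hc⟩ := PR.exists_group m
    obtain ⟨N, hN⟩ := eventually_atTop.1 (hpos.and (hf (2 * c)))
    obtain ⟨G, hG, hF, h1, h2, R, h3, h4⟩ := hc (N + (m + 1) ^ (2 * c) + m + 2)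
    obtain ⟨h5, h6⟩ := hN (Nat.card G) (by omega)
    refine ⟨G, hG, hF, by omega, h2, h5, fun k' hk r hr => ?_⟩
    have hc0 : c ≠ 0 := by
      rintro rfl
      rw [pow_zero] at h3
      omega
    have h7 : ((m : ℝ) + 1) ^ (2 * c) ≤ Nat.card G := by
      exact_mod_cast (by omega : (m + 1) ^ (2 * c) ≤ Nat.card G)
    have h8 : (Nat.card G : ℝ) ≤ (r : ℝ) ^ c := by
      exact_mod_cast h3.trans (Nat.pow_le_pow_left (h4 k' hk r hr) c)
    refine le_of_pow_le_pow_left₀ (n := 2 * c) (by omega) (by positivity) ?_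
    calc (((m : ℝ) + 1) * f (Nat.card G)) ^ (2 * c)
        = ((m : ℝ) + 1) ^ (2 * c) * f (Nat.card G) ^ (2 * c) := mul_pow _ _ _
      _ ≤ (r : ℝ) ^ c * (r : ℝ) ^ c := by gcongr <;> linarith
      _ = _ := by ring
  choose G hG hF h1 h2 h0 h3 using key
  refine ⟨G, hG, hF, tendsto_atTop_mono h1 tendsto_id, fun m => ?_, fun k' => ?_⟩
  · obtain ⟨r, hr⟩ := h2 m
    exact ⟨r + 1, by omega, fun H _ _ hc hi => wins_succ _ _ (hr H hc hi)⟩
  · rw [ENNReal.tendsto_nhds_top_iff_nat]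
    intro n
    filter_upwards [eventually_ge_atTop k', eventually_ge_atTop n] with m hm hn
    have hle : ((m + 1 : ℕ) : ENNReal) * ENNReal.ofReal (f (Nat.card (G m))) ≤
        ((Rounds k' (G m) : ℕ∞) : ENNReal) := by
      rw [Rounds, sInf_eq_iInf]
      simp only [ENat.toENNReal_iInf]
      refine le_iInf₂ ?_
      rintro _ ⟨r, -, hr, rfl⟩
      have := ENNReal.ofReal_le_ofReal (h3 m k' hm r hr)
      rw [ENNReal.ofReal_mul (by positivity), ENNReal.ofReal_natCast] at this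
      refine le_trans (le_of_eq ?_) (this.trans (by simp))
      congr 1
      rw [← ENNReal.ofReal_natCast]
      push_cast
      rfl
    refine lt_of_lt_of_le (b := ((m + 1 : ℕ) : ENNReal)) (by exact_mod_cast (by omega)) ?_
    exact (ENNReal.le_div_iff_mul_le (Or.inl (by simpa using h0 m))
      (Or.inl ENNReal.ofReal_ne_top)).2 hle

end Pool.Agent.Results.MP_45960e_lc.PolyRounds
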